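import Pool.Agent.Helper19.OrbitProof

/-!
# Finite orbits on curves without separated multiples

The objects of the problem are in `Pool.Agent.Helper19.OrbitDefs`, the proof is in
`Pool.Agent.Helper19.OrbitProof`.
-/

open Polynomial
open scoped Polynomial.Bivariate
open Pool.Agent.Helper19.Orbits

namespace Pool.Agent.Results.MP_f5f7dd_ag.FiniteOrbits

universe u

/-- **Main theorem.** Let `K` be an algebraically closed field of characteristic `0` and
`p ∈ K[x, y]` irreducible, `p ∉ K[x] ∪ K[y]`. If the field of separated multiples of `p` is trivial,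
then the curve `C ⊆ ℙ¹ × ℙ¹` has only finitely many finite orbits, namely at most
`4 * deg_x p * deg_y p + 1`. -/
theorem result (K : Type u) [Field K] [IsAlgClosed K] [CharZero K] (p : K[X][Y])
    (hp : Irreducible p)
    (hx : p ∉ Set.range (C : K[X] → K[X][Y]))
    (hy : p ∉ Set.range (Polynomial.map (C : K →+* K[X])))
    (hF : IsTrivialF p) :
    (finiteOrbits p).encard ≤ ((4 * degX p * degY p + 1 : ℕ) : ℕ∞) := by
  obtain ⟨h1, h2⟩ := main hp hx hy hF
  rw [← h1.cast_ncard_eq]
  have hpn : degY p ≠ 0 := fun h => hx ⟨_, (eq_C_of_natDegree_eq_zero h).symm⟩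
  have hsn : degX p ≠ 0 := fun h => swap_not_mem hy ⟨_, (eq_C_of_natDegree_eq_zero h).symm⟩
  have h3 : 3 + (2 * degY p - 1) * degX p + (2 * degX p - 1) * degY p ≤
      4 * degX p * degY p + 1 := by
    obtain ⟨m, hm⟩ := Nat.exists_eq_succ_of_ne_zero hpn
    obtain ⟨n, hn⟩ := Nat.exists_eq_succ_of_ne_zero hsn
    rw [hm, hn]
    have e1 : 2 * m.succ - 1 = 2 * m + 1 := by omega
    have e2 : 2 * n.succ - 1 = 2 * n + 1 := by omega
    rw [e1, e2]
    simp only [Nat.succ_eq_add_one]
    nlinarith
  exact_mod_cast h2.trans h3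

end Pool.Agent.Results.MP_f5f7dd_ag.FiniteOrbits
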